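import Pool.Agent.Helper6_RCA.Asm

/-!
# Asymptotic full rainbow theorem for arbitrary pairs of matroids
-/

set_option autoImplicit false

namespace Pool.Agent.Results.MP_33201b_co.AsymptoticFull

/-- For every `ε > 0` there is `n₀` such that for all `n ≥ n₀`, any two matroids `M`, `N` on the same
ground set and any `n` sets `S 0, ..., S (n - 1)` which are independent in `M` and in `N` and have at
least `(1 + ε) n` elements each, there are distinct elements `g i ∈ S i` (`i < n`) such that
`{g 0, ..., g (n - 1)}` is independent in `M` and in `N`. -/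
theorem result.{u} (ε : ℝ) (hε : 0 < ε) : ∃ n₀ : ℕ, ∀ (α : Type u) (M N : Matroid α) (n : ℕ)
    (S : Fin n → Finset α), n₀ ≤ n → (∀ i, M.Indep (S i : Set α)) →
    (∀ i, N.Indep (S i : Set α)) → (∀ i, (1 + ε) * n ≤ ((S i).card : ℝ)) →
    ∃ g : Fin n → α, (∀ i, g i ∈ S i) ∧ Function.Injective g ∧ M.Indep (Set.range g) ∧
      N.Indep (Set.range g) :=
  Pool.Agent.RCM.H6A.far_ ε hε

end Pool.Agent.Results.MP_33201b_co.AsymptoticFull
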