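import Pool.Agent.Helper31_FEW.Main

set_option autoImplicit false

namespace Pool.Agent.Results.MP_33201b_co.FewDistinct

open Finset

/-- Let `M`, `N` be two matroids and `T 0, ..., T (r-1)` sets of size `n` which are independent in
both matroids. Let `S 0, ..., S (n-1)` be sets such that `S i` contains all but at most `t` elements
of `T (c i)`, and let `b k` be the number of the `i` with `c i = k`. Then there are a set `J` of
indices and distinct elements `g i ∈ S i` for `i ∈ J`, which together are independent in both
matroids, such that `n - |J|` is at most `3 t`, plus the sum of the `b k` which are less than `2 t`,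
plus the sum of `min (b k, 31/6)` over the other `k`.

For `t = 0` and `S i = T (c i)`: a collection of `n` common independent sets of size `n` with `r`
distinct members has a rainbow common independent set of size at least `n - 31 r / 6`. -/
theorem result {α : Type*} [DecidableEq α] (M N : Matroid α) (n r t : ℕ)
    (T : Fin r → Finset α)
    (hT : ∀ k, M.Indep (↑(T k) : Set α) ∧ N.Indep (↑(T k) : Set α) ∧ (T k).card = n)
    (S : Fin n → Finset α) (c : Fin n → Fin r) (hS : ∀ i, (T (c i) \ S i).card ≤ t) :
    ∃ (J : Finset (Fin n)) (g : Fin n → α), (∀ i ∈ J, g i ∈ S i) ∧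
      Set.InjOn g (J : Set (Fin n)) ∧ M.Indep (g '' (J : Set (Fin n))) ∧
      N.Indep (g '' (J : Set (Fin n))) ∧
      6 * n ≤ 6 * J.card + 18 * t + ∑ k,
        if (univ.filter (fun i => c i = k)).card < 2 * t then
          6 * (univ.filter (fun i => c i = k)).card
        else min (6 * (univ.filter (fun i => c i = k)).card) 31 :=
  Pool.Agent.H31F.main M N n r t T hT S c hS

end Pool.Agent.Results.MP_33201b_co.FewDistinct
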