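import Pool.Agent.Helper35_RCM.Tra

/-!
# Rainbow common independent sets: two closures for an arbitrary pair of matroids
-/

set_option autoImplicit false

namespace Pool.Agent.Results.MP_33201b_co.RecycledClosure

/-- `f` is admissible for `M` (for the numbers `s` and `d`): `f ≤ 3 d / 2`, for every matroid `M`;
or, if `M` is a transversal matroid (a set is independent if and only if it can be matched into `ρ`
along `adj`), `f ≤ (d ^ 2 + 3) / 4`, or `d ≥ d₀` and `f ≤ (1 / 2 - ε) d ^ 2`, or `ρ` has exactly `s`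
elements and `f ≤ d (d - 1) / 2 + min d 4`. -/
def AdmT.{u, v} {α : Type u} (M : Matroid α) (ε : ℝ) (d₀ s d f : ℕ) : Prop :=
  2 * f ≤ 3 * d ∨
    ∃ (ρ : Type v) (adj : α → ρ → Prop),
      (∀ X : Finset α, M.Indep (X : Set α) ↔
        ∃ q : {x // x ∈ X} → ρ, Function.Injective q ∧ ∀ x : {x // x ∈ X}, adj (x : α) (q x)) ∧
      (4 * f ≤ d ^ 2 + 3 ∨ (d₀ ≤ d ∧ (f : ℝ) ≤ (1 / 2 - ε) * (d : ℝ) ^ 2) ∨
        (Nat.card ρ = s ∧ f ≤ d * (d - 1) / 2 + min d 4))

/-- `g` is admissible for `N`: `g ≤ 3 d / 2`, or `d ≥ d₀` and `g ≤ C d`, for every matroid `N`; or,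
if `N` is the partition matroid of a map `r` to `ρ` (a set is independent if and only if `r` is
injective on it), one of the three bounds for transversal matroids above. -/
def AdmP.{u, w} {α : Type u} (N : Matroid α) (ε : ℝ) (C d₀ s d g : ℕ) : Prop :=
  2 * g ≤ 3 * d ∨ (d₀ ≤ d ∧ g ≤ C * d) ∨
    ∃ (ρ : Type w) (r : α → ρ), (∀ X : Finset α, N.Indep (X : Set α) ↔ Set.InjOn r X) ∧
      (4 * g ≤ d ^ 2 + 3 ∨ (d₀ ≤ d ∧ (g : ℝ) ≤ (1 / 2 - ε) * (d : ℝ) ^ 2) ∨
        (Nat.card ρ = s ∧ g ≤ d * (d - 1) / 2 + min d 4))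

/-- Let `M`, `N` be two matroids on a common ground set and `S 0, ..., S (m - 1)` sets (equal
members allowed), each independent in `M` and in `N` and with at least `s` elements. Let `f` be
admissible for `M` and `g` admissible for `N`. Suppose that `s < m + d` and `s < f + d`, or that
`s + 2 ≤ m + d` and `s < f + g + (m + d - s - 1) d`. Then there is a rainbow set with more than
`s - d` elements which is independent in `M` and in `N`. -/
theorem result.{u, v, w} (ε : ℝ) (hε : 0 < ε) (C : ℕ) :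
    ∃ d₀ : ℕ, ∀ (α : Type u) (M N : Matroid α) (m s d f g : ℕ) (S : Fin m → Finset α),
      (∀ i, M.Indep (S i : Set α) ∧ N.Indep (S i : Set α) ∧ s ≤ (S i).card) →
      AdmT.{u, v} M ε d₀ s d f → AdmP.{u, w} N ε C d₀ s d g →
      (s < m + d ∧ s < f + d) ∨ (s + 2 ≤ m + d ∧ s < f + g + (m + d - s - 1) * d) →
      ∃ (R : Finset α) (φ : {x // x ∈ R} → Fin m), s < R.card + d ∧ Function.Injective φ ∧
        (∀ x : {x // x ∈ R}, (x : α) ∈ S (φ x)) ∧ M.Indep (R : Set α) ∧ N.Indep (R : Set α) :=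
  Pool.Agent.RCM.H35T.crit ε hε C

end Pool.Agent.Results.MP_33201b_co.RecycledClosure
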