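import Pool.Agent.Helper27_R3M.Asm

set_option autoImplicit false

namespace Pool.Agent.Results.MP_33201b_co.ThreeDistinctSets

/-- Let `M`, `N` be two matroids and `S 0, ..., S (n-1)` a collection of `n` sets of size `n + 1`,
all independent in both matroids, which takes at most three distinct values `A`, `B`, `C` (with
arbitrary multiplicities). Then the collection has a full rainbow set which is independent in both
matroids: distinct elements `g i`, one from each member `S i`. -/
theorem result {α : Type*} (M N : Matroid α) (n : ℕ) (S : Fin n → Finset α) (A B C : Finset α)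
    (hS : ∀ i, M.Indep (↑(S i) : Set α) ∧ N.Indep (↑(S i) : Set α) ∧ (S i).card = n + 1)
    (hABC : ∀ i, S i = A ∨ S i = B ∨ S i = C) :
    ∃ g : Fin n → α, Function.Injective g ∧ (∀ i, g i ∈ S i) ∧
      M.Indep (Set.range g) ∧ N.Indep (Set.range g) :=
  Pool.Agent.R3M.H27.three Pool.Agent.R3M.H27.asm M N n S A B C hS hABC

end Pool.Agent.Results.MP_33201b_co.ThreeDistinctSets
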